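import Pool.Agent.Helper58.DH.Goals

/-!
# Packet DH F_PAR: the theorem for real parameters
-/

set_option autoImplicit false

namespace Pool.Agent.Helper18.DH

open Pool.Agent.Helper58.DH Pool.Agent.Helper58.DG

theorem neg_one_le_sg (r : ℝ) : -1 ≤ sg r := by
  unfold sg
  rcases lt_trichotomy r 0 with h | h | h
  · simp [h]
  · simp [h]
  · simp [h]

theorem ne_zero_of_sg {r : ℝ} (h : sg r = 1) : r ≠ 0 := by
  rintro rfl
  simp [sg] at h

theorem f_par (hD : H_DEG) (hK : K_ALL) (hE : L_EQV) (hS : L_SGN) : F_PAR := by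
  intro P Q M E hP hQ hM hPE hQE hsum hpp hpq
  obtain ⟨hall, hcard⟩ := hK P Q M E hP hQ hM hPE hQE hsum
  have hsum' : 2 * Q + 2 * P + M + 2 * E = 1 := by linarith
  have s1' : sg (jac (PC P Q M E 1) (kc P Q M E)) = 1 := hS P Q M E hP hQ hM hPE hQE hsum hpp
  have s2' : sg (jac (PC P Q M E 1) (s2 (kc Q P M E))) = 1 := by
    rw [(hE Q P M E 1 (kc Q P M E)).2]
    exact hS Q P M E hQ hP hM hQE hPE hsum' hpq
  have s3' : sg (jac (PC P Q M E 1) (s1 (kc P Q M E))) = 1 := by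
    rw [(hE P Q M E 1 (kc P Q M E)).1, s1']
  have s4' : sg (jac (PC P Q M E 1) (s1 (s2 (kc Q P M E)))) = 1 := by
    rw [(hE P Q M E 1 (s2 (kc Q P M E))).1, s2']
  set K : Finset (Fin 6 → ℝ) :=
    {kc P Q M E, s1 (kc P Q M E), s2 (kc Q P M E), s1 (s2 (kc Q P M E))} with hKdef
  have hmem : ∀ w, w ∈ K ↔ SolC P Q M E 1 w ∧ KC w := by
    intro w
    rw [hall w, hKdef]
    simp
  have hsg : ∀ w ∈ K, sg (jac (PC P Q M E 1) w) = 1 := by
    intro w hw
    rw [hKdef] at hw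
    simp only [Finset.mem_insert, Finset.mem_singleton] at hw
    rcases hw with rfl | rfl | rfl | rfl
    · exact s1'
    · exact s3'
    · exact s2'
    · exact s4'
  have hsumK : ∑ w ∈ K, sg (jac (PC P Q M E 1) w) = 4 := by
    rw [Finset.sum_congr rfl hsg, Finset.sum_const, hcard]
    rfl
  refine ⟨?_, ?_⟩
  · by_contra hno
    push Not at hno
    have h0 := hD P Q M E K hP hQ hM hPE hQE hsum
      (fun w => ⟨fun h => ((hmem w).1 h).1, fun h => (hmem w).2 ⟨h, hno w h⟩⟩)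
      (fun w hw => ne_zero_of_sg (hsg w hw))
    rw [hsumK] at h0
    exact absurd h0 (by norm_num)
  · intro Z hZ hjac
    classical
    have h0 := hD P Q M E Z hP hQ hM hPE hQE hsum hZ hjac
    have hKZ : K ⊆ Z := fun w hw => (hZ w).2 ((hmem w).1 hw).1
    have hsplit := Finset.sum_sdiff (f := fun w => sg (jac (PC P Q M E 1) w)) hKZ
    rw [h0, hsumK] at hsplit
    have hge : -((Z \ K).card : ℤ) ≤ ∑ w ∈ Z \ K, sg (jac (PC P Q M E 1) w) := by
      have h1 : ∑ _w ∈ Z \ K, (-1 : ℤ) ≤ ∑ w ∈ Z \ K, sg (jac (PC P Q M E 1) w) :=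
        Finset.sum_le_sum fun w _ => neg_one_le_sg _
      rw [Finset.sum_const, smul_neg, nsmul_eq_mul, mul_one] at h1
      exact h1
    refine ⟨Z \ K, Finset.sdiff_subset, ?_, ?_⟩
    · omega
    · intro w hw hkc
      rw [Finset.mem_sdiff] at hw
      exact hw.2 ((hmem w).2 ⟨(hZ w).1 hw.1, hkc⟩)

end Pool.Agent.Helper18.DH
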